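import Pool.Agent.H98.EX.LTargets

/-!
# Row HKX of the board `exa_modules`: the jump law on the scale of the cells

After `Pool/Agent/H86/SLN/HKR.lean` and `Pool/Agent/H67/SLN/UUP.lean`.
-/

set_option autoImplicit false

open MeasureTheory ProbabilityTheory Filter Topology
open Pool.Agent.H95 Pool.Agent.H95.Cop
open Pool.Agent.H55.CG (VV Mo)
open Pool.Agent.H98.CE (pc WB HK OBJ nx Fl)
open Pool.Agent.H98.SLN (RG TS MM YY sd)

namespace Pool.Agent.H64.EX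

theorem VV_eq (K : PMF ℕ) (ℓ : ℕ) : VV K ℓ = ∑ y ∈ Finset.range ℓ, UU K (ℓ - y) := by
  unfold VV
  refine Finset.sum_congr rfl fun y _ => ?_
  rw [Finset.sum_Ico_eq_sum_range]
  unfold UU
  refine Finset.sum_congr rfl fun i _ => ?_
  rw [Nat.add_sub_cancel_left]

theorem UU_nonneg (K : PMF ℕ) (L : ℕ) : 0 ≤ UU K L := by
  unfold UU
  exact Finset.sum_nonneg fun i _ => uu_nonneg _ (kk_nonneg K) _

theorem sum_sub (k : ℕ) : (k : ℝ) ^ 2 ≤ 2 * ∑ y ∈ Finset.range k, ((k - y : ℕ) : ℝ) := by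
  have h1 : ∑ y ∈ Finset.range k, ((k - y : ℕ) : ℝ) = ∑ y ∈ Finset.range k, ((y : ℝ) + 1) := by
    rw [← Finset.sum_range_reflect]
    refine Finset.sum_congr rfl fun y hy => ?_
    rw [Finset.mem_range] at hy
    have h2 : k - (k - 1 - y) = y + 1 := by omega
    rw [h2]
    push_cast
    ring
  rw [h1]
  clear h1
  induction k with
  | zero => simp
  | succ k ih =>
    rw [Finset.sum_range_succ]
    push_cast
    nlinarith [ih, (Nat.cast_nonneg k : (0 : ℝ) ≤ (k : ℝ))]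

/-- The mass of the pairs of sites of a cell, from below. -/
theorem sq_le_VV (hUUP : Pool.Agent.H98.SLN.T_UUP) (K : PMF ℕ) (hK0 : K 0 = 0) (k : ℕ) :
    (k : ℝ) ^ 2 ≤ 2 * TS K k * VV K k := by
  have hmono := (hUUP K hK0).2.1
  have h1 : ∀ y ∈ Finset.range k, ((k - y : ℕ) : ℝ) ≤ UU K (k - y) * TS K k := fun y _ =>
    (le_UU_mul K hK0 (k - y)).trans
      (mul_le_mul_of_nonneg_left (hmono _ _ (Nat.sub_le _ _)) (UU_nonneg K _))
  calc (k : ℝ) ^ 2 ≤ 2 * ∑ y ∈ Finset.range k, ((k - y : ℕ) : ℝ) := sum_sub k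
    _ ≤ 2 * ∑ y ∈ Finset.range k, UU K (k - y) * TS K k :=
        mul_le_mul_of_nonneg_left (Finset.sum_le_sum h1) (by norm_num)
    _ = 2 * TS K k * VV K k := by
        rw [VV_eq, ← Finset.sum_mul]
        ring

theorem pf_HKX (hUUP : Pool.Agent.H98.SLN.T_UUP) (hTLQ : Pool.Agent.H98.SLN.T_TLQ) :
    Pool.Agent.H98.EX.T_HKX := by
  intro K α c δ r k q h
  obtain ⟨hl1, hql, hTS, _, _⟩ := hTLQ K α c δ k q h.rg
  have hV := sq_le_VV hUUP K h.rg.K0 k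
  have hl0 : (0 : ℝ) < k := by exact_mod_cast hl1
  have hVV : 0 < VV K k := by
    by_contra hc
    push Not at hc
    have : 2 * TS K k * VV K k ≤ 0 := mul_nonpos_of_nonneg_of_nonpos (by positivity) hc
    have h2 : 0 < (k : ℝ) ^ 2 := by positivity
    linarith
  have hpow : (k : ℝ) ^ 2 = (k : ℝ) ^ (1 + α) * (k : ℝ) ^ (1 - α) := by
    rw [← Real.rpow_add hl0, ← Real.rpow_natCast]
    congr 1
    push_cast
    ring
  have hp1 : 0 < (k : ℝ) ^ (1 + α) := Real.rpow_pos_of_pos hl0 _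
  have hc := h.rg.c0
  have hr : 0 < 1 - r := by linarith [h.r1]
  have hkey : (1 - r) ^ 2 * δ / 4 * (k : ℝ) ^ (1 + α) ≤ (1 - r) * c / 2 * VV K k := by
    have h1 : c * (k : ℝ) ^ 2 ≤ c * (2 * TS K k * VV K k) := mul_le_mul_of_nonneg_left hV hc.le
    have h2 : (k : ℝ) ^ (1 + α) * ((1 - r) * (δ * TS K k)) ≤
        (k : ℝ) ^ (1 + α) * (c * (k : ℝ) ^ (1 - α)) :=
      mul_le_mul_of_nonneg_left h.v2 hp1.le
    have h3 : TS K k * ((1 - r) * δ * (k : ℝ) ^ (1 + α)) ≤ TS K k * (2 * (c * VV K k)) := by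
      calc TS K k * ((1 - r) * δ * (k : ℝ) ^ (1 + α))
          = (k : ℝ) ^ (1 + α) * ((1 - r) * (δ * TS K k)) := by ring
        _ ≤ (k : ℝ) ^ (1 + α) * (c * (k : ℝ) ^ (1 - α)) := h2
        _ = c * (k : ℝ) ^ 2 := by rw [hpow]; ring
        _ ≤ c * (2 * TS K k * VV K k) := h1
        _ = TS K k * (2 * (c * VV K k)) := by ring
    have h4 := le_of_mul_le_mul_left h3 hTS
    have h5 := mul_le_mul_of_nonneg_left h4 hr.le
    calc (1 - r) ^ 2 * δ / 4 * (k : ℝ) ^ (1 + α)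
        = (1 - r) * ((1 - r) * δ * (k : ℝ) ^ (1 + α)) / 4 := by ring
      _ ≤ (1 - r) * (2 * (c * VV K k)) / 4 := by linarith
      _ = (1 - r) * c / 2 * VV K k := by ring
  refine ⟨?_, ?_, hVV⟩
  · intro j hj
    have hj0 : (0 : ℝ) < j := by
      have : 1 ≤ j := hl1.trans hj
      exact_mod_cast this
    have hlo := h.lo j (hql.trans hj)
    have hjp : 0 < (j : ℝ) ^ (-(1 + α)) := Real.rpow_pos_of_pos hj0 _
    have e1 : ((j : ℝ) / k) ^ (-(1 + α)) = (k : ℝ) ^ (1 + α) * (j : ℝ) ^ (-(1 + α)) := by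
      rw [Real.div_rpow hj0.le hl0.le, Real.rpow_neg hl0.le, div_inv_eq_mul, mul_comm]
    rw [e1]
    calc (1 - r) ^ 2 * δ / 4 * ((k : ℝ) ^ (1 + α) * (j : ℝ) ^ (-(1 + α)))
        = ((1 - r) ^ 2 * δ / 4 * (k : ℝ) ^ (1 + α)) * (j : ℝ) ^ (-(1 + α)) := by ring
      _ ≤ ((1 - r) * c / 2 * VV K k) * (j : ℝ) ^ (-(1 + α)) :=
          mul_le_mul_of_nonneg_right hkey hjp.le
      _ = ((1 - r) * c * (j : ℝ) ^ (-(1 + α))) / 2 * VV K k := by ring
      _ ≤ kk K j / 2 * VV K k := by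
          refine mul_le_mul_of_nonneg_right ?_ hVV.le
          linarith
  · rw [Real.rpow_neg hl0.le, ← div_eq_mul_inv, le_div_iff₀ hp1]
    linarith

end Pool.Agent.H64.EX
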