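import Pool.Agent.H98.EX.WTargets

/-!
# HUP: the negative moment of order `1/2` from above (helper64)

Two-term recursions for the negative moments at the half-integers (from below) and at the integers
(from above), joined by logarithmic convexity; the constant is the product of Wallis.
-/

set_option autoImplicit false

open MeasureTheory ProbabilityTheory Filter Topology
open Pool.Agent.H98.EX Pool.Agent.H95 Pool.Agent.H95.Cop
open Pool.Agent.H55.CG (Mo)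

namespace Pool.Agent.H64.EX

/-- the exponents -/
noncomputable def Aq (q : ℝ) : ℝ := q / 4 + q ^ 2 / 2

noncomputable def Pm (m : ℕ) : ℝ := ∏ i ∈ Finset.range m, ((i : ℝ) + 1 / 2)

noncomputable def Fm (m : ℕ) : ℝ := ∏ i ∈ Finset.range m, ((i : ℝ) + 1)

lemma Pm_succ (m : ℕ) : Pm (m + 1) = Pm m * ((m : ℝ) + 1 / 2) := Finset.prod_range_succ _ _

lemma Fm_succ (m : ℕ) : Fm (m + 1) = Fm m * ((m : ℝ) + 1) := Finset.prod_range_succ _ _

lemma Pm_pos (m : ℕ) : 0 < Pm m := Finset.prod_pos fun i _ => by positivity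

lemma Fm_pos (m : ℕ) : 0 < Fm m := Finset.prod_pos fun i _ => by positivity

lemma PP (m : ℕ) : 2 * Real.Wallis.W m * (Pm m * Pm (m + 1)) = Fm m ^ 2 := by
  induction m with
  | zero => simp [Pm, Fm, Real.Wallis.W]
  | succ m ih =>
    rw [Real.Wallis.W_succ, Fm_succ, Pm_succ (m + 1), mul_pow, ← ih, Pm_succ m]
    push_cast
    have h1 : (0 : ℝ) < 2 * m + 1 := by positivity
    have h2 : (0 : ℝ) < 2 * m + 3 := by positivity
    field_simp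
    ring

/-- the conditions on the parameters -/
structure Cd (m : ℕ) (δ ϑ τ : ℝ) : Prop where
  δ0 : 0 < δ
  δ1 : δ < 1
  ϑ0 : 0 < ϑ
  τ0 : 0 < τ
  τ1 : τ ≤ δ ^ 2 * ϑ / 4
  τ2 : τ ≤ ϑ / 64
  he : Real.exp (ϑ * (Aq (m + 2) + 1)) ≤ 1 + δ

/-- the hypothesis on the law of the increments -/
def Hy (m : ℕ) (ϑ τ : ℝ) (ϱ : Measure ℝ) : Prop :=
  ∀ q : ℝ, -1 ≤ q → q ≤ m + 2 → Real.exp (ϑ * Aq q - τ) ≤ Mo ϱ q ∧
    Mo ϱ q ≤ Real.exp (ϑ * Aq q + τ)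

lemma Aq_mono {p q : ℝ} (hp : 0 ≤ p) (hpq : p ≤ q) : Aq p ≤ Aq q := by
  unfold Aq
  nlinarith

section

variable {m : ℕ} {δ ϑ τ : ℝ} {ϱ : Measure ℝ}

lemma Cd.τ3 (C : Cd m δ ϑ τ) : τ ≤ δ * ϑ / 4 := by
  have h1 := C.τ1
  have h2 : δ ^ 2 * ϑ ≤ δ * ϑ := by
    have : δ ^ 2 ≤ δ := by nlinarith [C.δ0, C.δ1]
    exact mul_le_mul_of_nonneg_right this C.ϑ0.le
  linarith

lemma f1 (C : Cd m δ ϑ τ) (H : Hy m ϑ τ ϱ) {q : ℝ} (hq : 1 / 2 ≤ q) (hq2 : q ≤ m + 2) :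
    (1 - δ) * (ϑ * Aq q) ≤ Mo ϱ q - 1 := by
  have h1 := (H q (by linarith) hq2).1
  have h2 := Real.add_one_le_exp (ϑ * Aq q - τ)
  have h3 : 1 / 4 ≤ Aq q := by
    have := Aq_mono (by norm_num) hq
    unfold Aq at this ⊢
    linarith
  have h4 := C.τ3
  have h5 : δ * ϑ * (1 / 4) ≤ δ * ϑ * Aq q :=
    mul_le_mul_of_nonneg_left h3 (mul_pos C.δ0 C.ϑ0).le
  nlinarith

lemma f3 (C : Cd m δ ϑ τ) {q : ℝ} (hq : 0 ≤ q) (hq2 : q ≤ m + 2) :
    Real.exp (ϑ * Aq q + τ) ≤ 1 + δ := by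
  refine le_trans (Real.exp_le_exp.2 ?_) C.he
  have h1 := Aq_mono hq hq2
  have h2 := C.τ2
  have h3 := mul_le_mul_of_nonneg_left h1 C.ϑ0.le
  have h4 := C.ϑ0
  nlinarith

lemma f3' (C : Cd m δ ϑ τ) (H : Hy m ϑ τ ϱ) {q : ℝ} (hq : 0 ≤ q) (hq2 : q ≤ m + 2) :
    Mo ϱ q ≤ 1 + δ := (H q (by linarith) hq2).2.trans (f3 C hq hq2)

lemma f2 (C : Cd m δ ϑ τ) (H : Hy m ϑ τ ϱ) {q : ℝ} (hq : 0 ≤ q) (hq2 : q ≤ m + 2) :
    Mo ϱ q - 1 ≤ (1 + δ) * (ϑ * Aq q + τ) := by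
  have h1 := (H q (by linarith) hq2).2
  have h2 := f3 C hq hq2
  set x := ϑ * Aq q + τ with hx
  have hA : 0 ≤ Aq q := by unfold Aq; positivity
  have hx0 : 0 ≤ x := add_nonneg (mul_nonneg C.ϑ0.le hA) C.τ0.le
  have h3 := Real.add_one_le_exp (-x)
  have h4 : Real.exp x * Real.exp (-x) = 1 := by rw [← Real.exp_add]; simp
  have h5 : Real.exp x - 1 ≤ Real.exp x * x := by
    have := mul_le_mul_of_nonneg_left h3 (Real.exp_pos x).le
    rw [h4] at this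
    linarith
  have h6 : Real.exp x * x ≤ (1 + δ) * x := mul_le_mul_of_nonneg_right h2 hx0
  linarith

lemma f5 (C : Cd m δ ϑ τ) (H : Hy m ϑ τ ϱ) {q : ℝ} (hq : 1 ≤ q) (hq2 : q ≤ m + 2) :
    Mo ϱ q - 1 ≤ (1 + δ) ^ 2 * (ϑ * Aq q) := by
  have h1 := f2 C H (by linarith) hq2
  have h3 : 1 / 4 ≤ Aq q := by
    have := Aq_mono (by norm_num) hq
    unfold Aq at this ⊢
    linarith
  have h4 := C.τ3
  have h5 : δ * ϑ * (1 / 4) ≤ δ * ϑ * Aq q :=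
    mul_le_mul_of_nonneg_left h3 (mul_pos C.δ0 C.ϑ0).le
  have h6 : ϑ * Aq q + τ ≤ (1 + δ) * (ϑ * Aq q) := by nlinarith
  have h7 := mul_le_mul_of_nonneg_left h6 (by linarith [C.δ0] : (0 : ℝ) ≤ 1 + δ)
  calc Mo ϱ q - 1 ≤ _ := h1
    _ ≤ _ := h7
    _ = _ := by ring

lemma f4 (C : Cd m δ ϑ τ) (H : Hy m ϑ τ ϱ) : Mo ϱ (-(1 / 4)) ≤ Real.exp (-ϑ / 64) := by
  have h1 := (H (-(1 / 4)) (by norm_num) (by
    have : (0 : ℝ) ≤ m := Nat.cast_nonneg m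
    linarith)).2
  refine h1.trans (Real.exp_le_exp.2 ?_)
  have h2 := C.τ2
  have h3 : Aq (-(1 / 4)) = -(1 / 32) := by unfold Aq; norm_num
  rw [h3]
  linarith

/-- the mean of the increments -/
lemma mean_le [IsProbabilityMeasure ϱ] (hm : ∀ t : ℝ, Integrable (fun z => Real.exp (t * z)) ϱ)
    {v : ℝ} (hv : 0 < v) : ∫ z, z ∂ϱ ≤ (Mo ϱ v - 1) / v := by
  have hi : Integrable (fun z : ℝ => z) ϱ := by
    refine Integrable.mono' ((hm 1).add (hm (-1))) aestronglyMeasurable_id ?_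
    refine Eventually.of_forall fun z => ?_
    rw [Real.norm_eq_abs, abs_le]
    have h1 := Real.add_one_le_exp z
    have h2 := Real.add_one_le_exp (-z)
    have h3 := Real.exp_pos z
    have h4 := Real.exp_pos (-z)
    simp only [Pi.add_apply, one_mul, neg_mul]
    constructor <;> linarith
  rw [le_div_iff₀ hv]
  have h1 : ∫ z, (v * z + 1) ∂ϱ ≤ ∫ z, Real.exp (v * z) ∂ϱ := by
    refine integral_mono ((hi.const_mul v).add (integrable_const _)) (hm v) fun z => ?_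
    exact Real.add_one_le_exp _
  rw [integral_add (hi.const_mul v) (integrable_const _), integral_const_mul] at h1
  simp only [integral_const, smul_eq_mul, mul_one, probReal_univ] at h1
  unfold Mo
  linarith

/-- the lower recursion -/
lemma lower (hWBA : T_WBA) (hHFR : T_HFR) (C : Cd m δ ϑ τ) [IsProbabilityMeasure ϱ]
    (hm : ∀ t : ℝ, Integrable (fun z => Real.exp (t * z)) ϱ) (H : Hy m ϑ τ ϱ) (n : ℕ) :
    ∀ j : ℕ, j ≤ m → hh ϱ n (1 / 2) * ((1 - δ) * (ϑ / 2)) ^ j * Fm j ≤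
      (1 + δ) ^ j * hh ϱ n (j + 1 / 2) := by
  intro j
  induction j with
  | zero => intro _; simp [Fm]
  | succ j ih =>
    intro hj
    have h0 := ih (by omega)
    have hjm : (j : ℝ) + 1 ≤ m := by exact_mod_cast hj
    have hj0 : (0 : ℝ) ≤ j := Nat.cast_nonneg j
    set q : ℝ := (j : ℝ) + 1 / 2 with hq
    have hq0 : 0 < q := by positivity
    have h1 := (hHFR ϱ hm q n hq0).2
    obtain ⟨-, -, h2, h3, -, -⟩ := hWBA ϱ hm 0 q hq0.le
    obtain ⟨h4, -⟩ := h2 n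
    have h5 := h3 n (n + 1) (by omega)
    obtain ⟨-, -, h2', -, -, -⟩ := hWBA ϱ hm 0 (q + 1) (by linarith)
    obtain ⟨h6, -⟩ := h2' n
    have h7 := f1 C H (by linarith : 1 / 2 ≤ q) (by linarith)
    have h8 := f3' C H (by linarith : 0 ≤ q + 1) (by linarith)
    have h9 : (1 - δ) * (ϑ * Aq q) * hh ϱ n q ≤ q * ((1 + δ) * hh ϱ n (q + 1)) := by
      have a1 := mul_le_mul_of_nonneg_right h7 h4.le
      have a2 := mul_le_mul_of_nonneg_left (mul_le_mul_of_nonneg_right h8 h6.le) hq0.le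
      linarith
    have h10 : Aq q = q * (((j : ℝ) + 1) / 2) := by
      unfold Aq
      rw [hq]
      ring
    rw [h10] at h9
    have h11 : (1 - δ) * (ϑ / 2) * ((j : ℝ) + 1) * hh ϱ n q ≤ (1 + δ) * hh ϱ n (q + 1) := by
      refine le_of_mul_le_mul_left ?_ hq0
      calc q * ((1 - δ) * (ϑ / 2) * ((j : ℝ) + 1) * hh ϱ n q) =
          (1 - δ) * (ϑ * (q * (((j : ℝ) + 1) / 2))) * hh ϱ n q := by ring
        _ ≤ _ := h9
    have h12 : ((j + 1 : ℕ) : ℝ) + 1 / 2 = q + 1 := by rw [hq]; push_cast; ring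
    rw [h12, Fm_succ]
    have hδ : 0 < 1 - δ := by linarith [C.δ1]
    have hc : 0 ≤ (1 - δ) * (ϑ / 2) * ((j : ℝ) + 1) := by
      have := C.ϑ0
      positivity
    have hd : (0 : ℝ) < (1 + δ) ^ j := by
      have := C.δ0
      positivity
    calc hh ϱ n (1 / 2) * ((1 - δ) * (ϑ / 2)) ^ (j + 1) * (Fm j * ((j : ℝ) + 1)) =
        (hh ϱ n (1 / 2) * ((1 - δ) * (ϑ / 2)) ^ j * Fm j) *
          ((1 - δ) * (ϑ / 2) * ((j : ℝ) + 1)) := by ring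
      _ ≤ ((1 + δ) ^ j * hh ϱ n q) * ((1 - δ) * (ϑ / 2) * ((j : ℝ) + 1)) :=
          mul_le_mul_of_nonneg_right h0 hc
      _ = (1 + δ) ^ j * ((1 - δ) * (ϑ / 2) * ((j : ℝ) + 1) * hh ϱ n q) := by ring
      _ ≤ (1 + δ) ^ j * ((1 + δ) * hh ϱ n (q + 1)) := mul_le_mul_of_nonneg_left h11 hd.le
      _ = (1 + δ) ^ (j + 1) * hh ϱ n (q + 1) := by ring

/-- the speed of convergence -/
lemma speed (C : Cd m δ ϑ τ) (H : Hy m ϑ τ ϱ) (n : ℕ) :
    0 ≤ Mo ϱ (-(1 / 4)) ^ n ∧ Mo ϱ (-(1 / 4)) ^ n ≤ Real.exp (-ϑ / 64) ^ n := by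
  have h0 : 0 ≤ Mo ϱ (-(1 / 4)) := integral_nonneg fun z => (Real.exp_pos _).le
  exact ⟨pow_nonneg h0 _, pow_le_pow_left₀ h0 (f4 C H) _⟩

/-- small errors -/
lemma ev_small {ϑ : ℝ} (hϑ : 0 < ϑ) (c e : ℝ) (he : 0 < e) : ∃ N : ℕ, ∀ n : ℕ, N ≤ n →
    c * Real.exp (-ϑ / 64) ^ (n + 1) ≤ e := by
  have h1 : Real.exp (-ϑ / 64) < 1 := by
    rw [Real.exp_lt_one_iff]
    linarith
  have h2 := (tendsto_pow_atTop_nhds_zero_of_lt_one (Real.exp_pos (-ϑ / 64)).le h1).const_mul c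
  rw [mul_zero] at h2
  obtain ⟨N, hN⟩ := eventually_atTop.1 (h2.eventually_lt_const he)
  exact ⟨N, fun n hn => (hN (n + 1) (by omega)).le⟩

end

/-- the upper recursion -/
lemma upper (hWBA : T_WBA) (hHFR : T_HFR) (hHF0 : T_HF0) (hHFD : T_HFD) {m : ℕ} {δ ϑ τ : ℝ}
    (C : Cd m δ ϑ τ) : ∀ j : ℕ, j ≤ m → ∃ N : ℕ, ∀ (ϱ : Measure ℝ) [IsProbabilityMeasure ϱ],
    (∀ t : ℝ, Integrable (fun z => Real.exp (t * z)) ϱ) → Hy m ϑ τ ϱ → ∀ n : ℕ, N ≤ n →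
    hh ϱ n ((j : ℝ) + 1) ≤ (1 + δ) ^ (5 * (j + 1)) * ((ϑ / 2) ^ (j + 1) * Pm (j + 1)) := by
  have hδ := C.δ0
  have hϑ := C.ϑ0
  intro j
  induction j with
  | zero =>
    intro _
    obtain ⟨N, hN⟩ := ev_small hϑ 4 (((1 + δ) ^ 5 - (1 + δ) ^ 4) * (ϑ / 4)) (by
      apply mul_pos _ (by positivity)
      have h1 : (1 + δ) ^ 5 - (1 + δ) ^ 4 = δ * (1 + δ) ^ 4 := by ring
      rw [h1]
      positivity)
    refine ⟨N + 1, fun ϱ _ hm H n hn => ?_⟩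
    obtain ⟨n, rfl⟩ : ∃ k, n = k + 1 := ⟨n - 1, by omega⟩
    have h1 := (hHF0 ϱ hm (1 / 4) n (by norm_num) (by norm_num)).1
    have h2 := mean_le hm hδ
    have h3 := f2 C H hδ.le (by
      have : (0 : ℝ) ≤ m := Nat.cast_nonneg m
      linarith [C.δ1])
    have h4 := (speed C H (n + 1)).2
    have h5 := hN n (by omega)
    have h6 : (Mo ϱ δ - 1) / δ ≤ (1 + δ) ^ 4 * (ϑ / 4) := by
      rw [div_le_iff₀ hδ]
      refine h3.trans ?_
      have a1 := C.τ1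
      have a2 : ϑ * Aq δ + τ ≤ (1 + δ) ^ 3 * (ϑ / 4) * δ := by
        unfold Aq
        have a3 : 0 ≤ ϑ * δ ^ 3 := by positivity
        have a4 : 0 ≤ ϑ * δ ^ 4 := by positivity
        nlinarith
      calc (1 + δ) * (ϑ * Aq δ + τ) ≤ (1 + δ) * ((1 + δ) ^ 3 * (ϑ / 4) * δ) :=
            mul_le_mul_of_nonneg_left a2 (by linarith)
        _ = _ := by ring
    have h7 : Pm (0 + 1) = 1 / 2 := by simp [Pm]
    rw [h7]
    have h8 : Mo ϱ (-(1 / 4)) ^ (n + 1) / (1 / 4) = 4 * Mo ϱ (-(1 / 4)) ^ (n + 1) := by ring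
    rw [h8] at h1
    have h9 : ((0 : ℕ) : ℝ) + 1 = 1 := by simp
    rw [h9]
    have h10 : (1 + δ) ^ (5 * (0 + 1)) * ((ϑ / 2) ^ (0 + 1) * (1 / 2)) =
        (1 + δ) ^ 5 * (ϑ / 4) := by ring
    rw [h10]
    linarith
  | succ j ih =>
    intro hj
    obtain ⟨N₀, h0⟩ := ih (by omega)
    have hU : 0 < (ϑ / 2) ^ (j + 1 + 1) * Pm (j + 1 + 1) := mul_pos (by positivity) (Pm_pos _)
    obtain ⟨N, hN⟩ := ev_small hϑ (1 + δ)
      (((1 + δ) ^ (5 * (j + 1 + 1)) - (1 + δ) ^ (5 * (j + 1) + 2)) *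
        ((ϑ / 2) ^ (j + 1 + 1) * Pm (j + 1 + 1))) (by
      apply mul_pos _ hU
      have h1 : (1 + δ) ^ (5 * (j + 1) + 2) < (1 + δ) ^ (5 * (j + 1 + 1)) :=
        pow_lt_pow_right₀ (by linarith) (by omega)
      linarith)
    refine ⟨max N₀ N + 1, fun ϱ _ hm H n hn => ?_⟩
    obtain ⟨n, rfl⟩ : ∃ k, n = k + 1 := ⟨n - 1, by omega⟩
    have hn0 : N₀ ≤ n + 1 := by
      have := le_max_left N₀ N
      omega
    have hn1 : N ≤ n := by
      have := le_max_right N₀ N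
      omega
    have hjm : (j : ℝ) + 1 ≤ m := by exact_mod_cast hj
    have hj0 : (0 : ℝ) ≤ j := Nat.cast_nonneg j
    have h1 := h0 ϱ hm H (n + 1) hn0
    push_cast
    set q : ℝ := (j : ℝ) + 1 with hq
    have hq0 : 0 < q := by positivity
    have hq1 : 1 ≤ q := by linarith
    have h2 := (hHFR ϱ hm q n hq0).1
    have h3 := hHFD ϱ hm q (1 / 4) n hq0.le (by norm_num) (by norm_num)
    rw [max_eq_right hq1] at h3
    have h4 := speed C H (n + 1)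
    have h5 := f5 C H hq1 (by linarith)
    have h6 := f3' C H hq0.le (by linarith)
    have h7 := hN n hn1
    obtain ⟨-, -, h8, h9, -, -⟩ := hWBA ϱ hm 0 q hq0.le
    have h10 := h9 n (n + 1) (by omega)
    obtain ⟨h11, -⟩ := h8 (n + 1)
    have h12 : Aq q = q * ((((j : ℝ) + 1) + 1 / 2) / 2) := by
      unfold Aq
      rw [hq]
      ring
    have h13 : q * hh ϱ (n + 1) (q + 1) ≤ q * ((1 + δ) ^ 2 * (ϑ / 2 * ((j : ℝ) + 1 + 1 / 2)) *
        hh ϱ (n + 1) q + (1 + δ) * Real.exp (-ϑ / 64) ^ (n + 1)) := by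
      have a1 := mul_le_mul_of_nonneg_right h5 h11.le
      have a2 : Mo ϱ q * (hh ϱ n q - hh ϱ (n + 1) q) ≤
          (1 + δ) * (q * Real.exp (-ϑ / 64) ^ (n + 1)) := by
        have b1 : 0 ≤ Mo ϱ q := integral_nonneg fun z => (Real.exp_pos _).le
        refine mul_le_mul h6 (h3.trans (mul_le_mul_of_nonneg_left h4.2 hq0.le)) (by linarith)
          (by linarith)
      rw [h12] at a1
      calc q * hh ϱ (n + 1) (q + 1) ≤ Mo ϱ q * hh ϱ n q - hh ϱ (n + 1) q := h2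
        _ = (Mo ϱ q - 1) * hh ϱ (n + 1) q + Mo ϱ q * (hh ϱ n q - hh ϱ (n + 1) q) := by ring
        _ ≤ (1 + δ) ^ 2 * (ϑ * (q * ((((j : ℝ) + 1) + 1 / 2) / 2))) * hh ϱ (n + 1) q +
            (1 + δ) * (q * Real.exp (-ϑ / 64) ^ (n + 1)) := add_le_add a1 a2
        _ = _ := by ring
    have h14 := le_of_mul_le_mul_left h13 hq0
    have h15 : (1 + δ) ^ 2 * (ϑ / 2 * ((j : ℝ) + 1 + 1 / 2)) * hh ϱ (n + 1) q ≤
        (1 + δ) ^ (5 * (j + 1) + 2) * ((ϑ / 2) ^ (j + 1 + 1) * Pm (j + 1 + 1)) := by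
      have a1 := mul_le_mul_of_nonneg_left h1
        (show 0 ≤ (1 + δ) ^ 2 * (ϑ / 2 * ((j : ℝ) + 1 + 1 / 2)) by positivity)
      refine a1.trans (le_of_eq ?_)
      rw [Pm_succ (j + 1)]
      push_cast
      ring
    linarith

lemma exists_delta (m : ℕ) (η : ℝ) (hη : 0 < η) : ∃ δ : ℝ, 0 < δ ∧ δ < 1 ∧
    (1 + δ) ^ (12 * m + 5) ≤ (1 + η) * (1 - δ) ^ (2 * m) := by
  have h1 : Continuous fun δ : ℝ => (1 + η) * (1 - δ) ^ (2 * m) - (1 + δ) ^ (12 * m + 5) := by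
    fun_prop
  have h2 : ∀ᶠ δ : ℝ in 𝓝 0, 0 < (1 + η) * (1 - δ) ^ (2 * m) - (1 + δ) ^ (12 * m + 5) := by
    apply h1.continuousAt.eventually (lt_mem_nhds ?_)
    simpa using hη
  obtain ⟨r, hr, h3⟩ := Metric.eventually_nhds_iff.1 h2
  refine ⟨min (r / 2) (1 / 2), by positivity, ?_, ?_⟩
  · exact (min_le_right _ _).trans_lt (by norm_num)
  · have h4 := @h3 (min (r / 2) (1 / 2)) (by
      rw [Real.dist_eq, sub_zero, abs_of_pos (by positivity)]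
      exact (min_le_left _ _).trans_lt (by linarith))
    linarith

theorem pf_HUP (hWBA : T_WBA) (hHFR : T_HFR) (hHF0 : T_HF0) (hHFD : T_HFD) (hHFC : T_HFC) :
    T_HUP := by
  intro η hη
  -- the choice of `m`
  obtain ⟨m, hm1, hW⟩ : ∃ m : ℕ, 1 ≤ m ∧ Real.pi / 2 ≤ (1 + η) * Real.Wallis.W m := by
    have h1 : Real.pi / 2 / (1 + η) < Real.pi / 2 := by
      apply div_lt_self (by positivity)
      linarith
    obtain ⟨m, h2, h3⟩ := ((Real.Wallis.tendsto_W_nhds_pi_div_two.eventually_const_lt h1).and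
      (eventually_ge_atTop 1)).exists
    refine ⟨m, h3, ?_⟩
    rw [div_lt_iff₀ (by linarith)] at h2
    linarith
  obtain ⟨δ, hδ, hδ1, hδ2⟩ := exists_delta m η hη
  have hA : 0 < Aq (m + 2) + 1 := by unfold Aq; positivity
  refine ⟨m + 2, Real.log (1 + δ) / (Aq (m + 2) + 1), div_pos (Real.log_pos (by linarith)) hA,
    fun ϑ hϑ hϑ1 => ?_⟩
  rw [lt_div_iff₀ hA] at hϑ1
  have C : Cd m δ ϑ (min (δ ^ 2 * ϑ / 4) (ϑ / 64)) :=
    ⟨hδ, hδ1, hϑ, by positivity, min_le_left _ _, min_le_right _ _, by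
      rw [← Real.le_log_iff_exp_le (by linarith)]
      exact hϑ1.le⟩
  obtain ⟨N₁, h1⟩ := upper hWBA hHFR hHF0 hHFD C (m - 1) (by omega)
  obtain ⟨N₂, h2⟩ := upper hWBA hHFR hHF0 hHFD C m le_rfl
  refine ⟨min (δ ^ 2 * ϑ / 4) (ϑ / 64), max N₁ N₂, by positivity, ?_⟩
  intro ϱ _ hm H' n hn
  have H : Hy m ϑ (min (δ ^ 2 * ϑ / 4) (ϑ / 64)) ϱ := by
    intro q hq hq2
    exact H' q hq (by push_cast; exact hq2)
  have h3 := h1 ϱ hm H n ((le_max_left _ _).trans hn)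
  have h4 := h2 ϱ hm H n ((le_max_right _ _).trans hn)
  have hmm : m - 1 + 1 = m := by omega
  have hmr : ((m - 1 : ℕ) : ℝ) + 1 = m := by exact_mod_cast hmm
  rw [hmr, hmm] at h3
  have h5 := lower hWBA hHFR C hm H n m le_rfl
  have h6 := hHFC ϱ n m (m + 1) (1 / 2) (Nat.cast_nonneg m) (by positivity) (by norm_num)
    (by norm_num)
  have h7 : (1 / 2 : ℝ) * m + (1 - 1 / 2) * (m + 1) = m + 1 / 2 := by ring
  rw [h7] at h6
  have hpos : ∀ p : ℝ, 0 ≤ p → 0 < hh ϱ n p := fun p hp => ((hWBA ϱ hm 0 p hp).2.2.1 n).1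
  have p0 := hpos (1 / 2) (by norm_num)
  have p1 := hpos m (Nat.cast_nonneg m)
  have p2 := hpos (m + 1) (by positivity)
  have p3 := hpos (m + 1 / 2) (by positivity)
  have h8 : hh ϱ n (m + 1 / 2) ^ 2 ≤ hh ϱ n m * hh ϱ n (m + 1) := by
    have a1 := pow_le_pow_left₀ p3.le h6 2
    refine a1.trans (le_of_eq ?_)
    rw [mul_pow, ← Real.rpow_natCast (hh ϱ n m ^ (1 / 2 : ℝ)),
      ← Real.rpow_natCast (hh ϱ n (m + 1) ^ (1 - 1 / 2 : ℝ)), ← Real.rpow_mul p1.le,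
      ← Real.rpow_mul p2.le]
    norm_num
  set h := hh ϱ n (1 / 2) with hh0
  have hF := Fm_pos m
  have hW0 := Real.Wallis.W_pos m
  have hd1 : 0 < 1 - δ := by linarith
  have h9 : (h * ((1 - δ) * (ϑ / 2)) ^ m * Fm m) ^ 2 ≤ ((1 + δ) ^ m) ^ 2 *
      (((1 + δ) ^ (5 * m) * ((ϑ / 2) ^ m * Pm m)) *
        ((1 + δ) ^ (5 * (m + 1)) * ((ϑ / 2) ^ (m + 1) * Pm (m + 1)))) := by
    have a1 := pow_le_pow_left₀ (by positivity) h5 2
    rw [mul_pow ((1 + δ) ^ m)] at a1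
    have a2 : hh ϱ n m * hh ϱ n (m + 1) ≤ ((1 + δ) ^ (5 * m) * ((ϑ / 2) ^ m * Pm m)) *
        ((1 + δ) ^ (5 * (m + 1)) * ((ϑ / 2) ^ (m + 1) * Pm (m + 1))) :=
      mul_le_mul h3 h4 p2.le (p1.le.trans h3)
    exact a1.trans (mul_le_mul_of_nonneg_left (h8.trans a2) (by positivity))
  have h10 : h ^ 2 * (1 - δ) ^ (2 * m) * (2 * Real.Wallis.W m) ≤
      (1 + δ) ^ (12 * m + 5) * (ϑ / 2) := by
    have a0 : 0 < (ϑ / 2) ^ (2 * m) * (Pm m * Pm (m + 1)) :=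
      mul_pos (by positivity) (mul_pos (Pm_pos _) (Pm_pos _))
    refine le_of_mul_le_mul_right ?_ a0
    calc h ^ 2 * (1 - δ) ^ (2 * m) * (2 * Real.Wallis.W m) *
          ((ϑ / 2) ^ (2 * m) * (Pm m * Pm (m + 1))) =
        h ^ 2 * (1 - δ) ^ (2 * m) * (ϑ / 2) ^ (2 * m) *
          (2 * Real.Wallis.W m * (Pm m * Pm (m + 1))) := by ring
      _ = h ^ 2 * (1 - δ) ^ (2 * m) * (ϑ / 2) ^ (2 * m) * Fm m ^ 2 := by rw [PP]
      _ = (h * ((1 - δ) * (ϑ / 2)) ^ m * Fm m) ^ 2 := by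
          rw [mul_pow (1 - δ) (ϑ / 2) m, mul_pow, mul_pow, mul_pow, ← pow_mul, ← pow_mul,
            mul_comm m 2]
          ring
      _ ≤ _ := h9
      _ = _ := by
          have b1 : (1 + δ) ^ (12 * m + 5) = ((1 + δ) ^ m) ^ 2 * ((1 + δ) ^ (5 * m) *
              (1 + δ) ^ (5 * (m + 1))) := by
            rw [← pow_mul, ← pow_add, ← pow_add]
            congr 1
            ring
          have b2 : (ϑ / 2) ^ (2 * m) * (ϑ / 2) = (ϑ / 2) ^ m * (ϑ / 2) ^ (m + 1) := by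
            rw [← pow_succ, ← pow_add]
            congr 1
            ring
          rw [b1]
          calc _ = (((1 + δ) ^ m) ^ 2 * ((1 + δ) ^ (5 * m) * (1 + δ) ^ (5 * (m + 1)))) *
                (Pm m * Pm (m + 1)) * ((ϑ / 2) ^ m * (ϑ / 2) ^ (m + 1)) := by ring
            _ = _ := by rw [← b2]; ring
  have h11 : h ^ 2 * (2 * Real.Wallis.W m) ≤ (1 + η) * (ϑ / 2) := by
    have a0 : 0 < (1 - δ) ^ (2 * m) := by positivity
    refine le_of_mul_le_mul_right ?_ a0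
    calc h ^ 2 * (2 * Real.Wallis.W m) * (1 - δ) ^ (2 * m) =
        h ^ 2 * (1 - δ) ^ (2 * m) * (2 * Real.Wallis.W m) := by ring
      _ ≤ (1 + δ) ^ (12 * m + 5) * (ϑ / 2) := h10
      _ ≤ ((1 + η) * (1 - δ) ^ (2 * m)) * (ϑ / 2) :=
          mul_le_mul_of_nonneg_right hδ2 (by positivity)
      _ = _ := by ring
  have h12 : h ^ 2 ≤ (1 + η) ^ 2 * (ϑ / (2 * Real.pi)) := by
    have a1 : h ^ 2 * (2 * (Real.pi / 2)) ≤ (1 + η) * ((1 + η) * (ϑ / 2)) := by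
      calc h ^ 2 * (2 * (Real.pi / 2)) ≤ h ^ 2 * (2 * ((1 + η) * Real.Wallis.W m)) := by
            apply mul_le_mul_of_nonneg_left _ (by positivity)
            linarith
        _ = (1 + η) * (h ^ 2 * (2 * Real.Wallis.W m)) := by ring
        _ ≤ _ := mul_le_mul_of_nonneg_left h11 (by linarith)
    have a2 : (1 + η) ^ 2 * (ϑ / (2 * Real.pi)) = (1 + η) * ((1 + η) * (ϑ / 2)) / Real.pi := by
      field_simp
    rw [a2, le_div_iff₀ Real.pi_pos]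
    linarith
  have h13 : 0 ≤ (1 + η) * Real.sqrt (ϑ / (2 * Real.pi)) := by positivity
  rw [← sq_le_sq₀ p0.le h13, mul_pow, Real.sq_sqrt (by positivity)]
  exact h12

end Pool.Agent.H64.EX
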